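import Pool.Agent.H174.GP.StA
import Pool.Agent.H174.GP.StP
import Pool.Agent.H174.GP.StC
import Pool.Agent.H174.GP.StB

/-!
# Regularity of `beta`
-/

set_option autoImplicit false

open MeasureTheory ProbabilityTheory Finset Filter Topology

namespace Pool.Agent.H727.GP174

open Pool.Agent.H174.GP

theorem bn_nonneg {p : ℝ} (h0 : 0 ≤ p) (h1 : p ≤ 1) (n k : ℕ) : 0 ≤ bn n p k := by
  have : 0 ≤ 1 - p := by linarith
  unfold bn
  positivity

theorem bn_le_one {p : ℝ} (h0 : 0 ≤ p) (h1 : p ≤ 1) (n k : ℕ) : bn n p k ≤ 1 := by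
  rcases le_or_gt k n with h | h
  · have e : ∑ b ∈ range (n + 1), bn n p b = 1 := by
      have := add_pow p (1 - p) n
      rw [add_sub_cancel, one_pow] at this
      rw [this]
      refine sum_congr rfl fun b _ => ?_
      unfold bn
      ring
    rw [← e]
    exact single_le_sum (f := fun b => bn n p b) (fun b _ => bn_nonneg h0 h1 n b)
      (mem_range.2 (by omega))
  · unfold bn
    rw [Nat.choose_eq_zero_of_lt h, Nat.cast_zero, zero_mul, zero_mul]
    exact zero_le_one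

theorem geo_sum {x : ℝ} (hx0 : 0 ≤ x) (hx1 : x < 1) (b₀ N : ℕ) :
    ∑ b ∈ range N, (if b ≤ b₀ then x ^ (b₀ - b) else 0) ≤ 1 / (1 - x) := by
  have h1 : ∑ b ∈ range N, (if b ≤ b₀ then x ^ (b₀ - b) else 0) ≤
      ∑ b ∈ range (b₀ + 1), x ^ (b₀ + 1 - 1 - b) := by
    rw [← sum_filter]
    refine sum_le_sum_of_subset_of_nonneg ?_ fun _ _ _ => by positivity
    intro b hb
    rw [mem_filter] at hb
    exact mem_range.2 (by omega)
  refine h1.trans ?_
  rw [sum_range_reflect (fun i => x ^ i) (b₀ + 1)]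
  rw [le_div_iff₀ (by linarith), geom_sum_mul_neg]
  have : 0 ≤ x ^ (b₀ + 1) := by positivity
  linarith

/-- the comparison, for given `D` -/
theorem core {D : ℕ} (hD : 1 ≤ D) {σ p s1 s2 K F : ℝ} (hσ : 0 < σ) (h1 : s1 ≤ σ * D)
    (h2 : σ * D ≤ s2) (hs1 : 0 < s1) (hp0 : 0 ≤ p) (hp1 : p ≤ 1) (hK : 0 ≤ K) (n t t' I : ℕ)
    (hI : Real.exp (-(s1 * I)) ≤ F)
    (hnear : ∀ b, b ≤ t / D → t / D - b ≤ I → bn n p b ≤ bn n p (t' / D) * K)
    (hp : p = pD D σ) :
    beta D σ n t ≤ K * (Real.exp (2 * s2) / (1 - Real.exp (-s1))) * beta D σ n t' +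
      F / (1 - Real.exp (-s1)) := by
  obtain ⟨b₀, hb₀⟩ : ∃ b₀, b₀ = t / D := ⟨_, rfl⟩
  obtain ⟨b₁, hb₁⟩ : ∃ b₁, b₁ = t' / D := ⟨_, rfl⟩
  rw [← hb₀, ← hb₁] at hnear
  have hDpos : 0 < D := by omega
  have hDR : (0 : ℝ) < D := by exact_mod_cast hDpos
  obtain ⟨x, hx⟩ : ∃ x, x = Real.exp (-(σ * D)) := ⟨_, rfl⟩
  have hx0 : 0 < x := by rw [hx]; exact Real.exp_pos _
  have hxs : x ≤ Real.exp (-s1) := by
    rw [hx]
    exact Real.exp_le_exp.2 (by linarith)
  have hs1' : Real.exp (-s1) < 1 := by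
    rw [Real.exp_lt_one_iff]
    linarith
  have hx1 : x < 1 := lt_of_le_of_lt hxs hs1'
  have hd : 0 < 1 - Real.exp (-s1) := by linarith
  have hr1 : Real.exp (-(2 * σ)) < 1 := by
    rw [Real.exp_lt_one_iff]
    linarith
  obtain ⟨q, hq⟩ : ∃ q, q = 1 - Real.exp (-(2 * σ)) := ⟨_, rfl⟩
  have hq0 : 0 < q := by rw [hq]; linarith
  have hq1 : q ≤ 1 := by
    rw [hq]
    have := Real.exp_pos (-(2 * σ))
    linarith
  -- the weight of a term
  have hwt : ∀ b, b ≤ b₀ → Real.exp (-(2 * σ * ((t : ℝ) - D * b))) ≤ x ^ (b₀ - b) * x ^ (b₀ - b) := by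
    intro b hb
    have e1 : x ^ (b₀ - b) * x ^ (b₀ - b) = Real.exp (-(2 * σ * D * ((b₀ : ℝ) - b))) := by
      rw [hx, ← Real.exp_nat_mul, ← Real.exp_add, Nat.cast_sub hb]
      congr 1
      ring
    rw [e1]
    apply Real.exp_le_exp.2
    have e2 : (D : ℝ) * b₀ ≤ t := by
      have : D * b₀ ≤ t := by rw [hb₀]; exact Nat.mul_div_le t D
      exact_mod_cast this
    have : 0 ≤ 2 * σ * ((t : ℝ) - D * b₀) := mul_nonneg (by positivity) (by linarith)
    linarith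
  have hbn1 := bn_nonneg hp0 hp1 n b₁
  have hxI : x ^ I ≤ F := by
    refine le_trans ?_ hI
    rw [hx, ← Real.exp_nat_mul]
    apply Real.exp_le_exp.2
    have : s1 * I ≤ σ * D * I := mul_le_mul_of_nonneg_right h1 (Nat.cast_nonneg I)
    linarith
  have hF0 : 0 ≤ F := le_trans (by positivity) hxI
  -- term by term
  have hterm : ∀ b ∈ range (n + 1), (if D * b ≤ t then
      bn n (pD D σ) b * ((1 - Real.exp (-(2 * σ))) * Real.exp (-(2 * σ * ((t : ℝ) - D * b)))) else 0)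
      ≤ (K * bn n p b₁ * q) * (if b ≤ b₀ then x ^ (b₀ - b) else 0) +
        F * (if b ≤ b₀ then x ^ (b₀ - b) else 0) := by
    intro b _
    rw [← hp, ← hq]
    by_cases hb : b ≤ b₀
    · have hb' : D * b ≤ t := by
        calc D * b ≤ D * b₀ := Nat.mul_le_mul_left D hb
          _ ≤ t := by rw [hb₀]; exact Nat.mul_div_le t D
      rw [if_pos hb', if_pos hb]
      have hw := hwt b hb
      have hxk : 0 < x ^ (b₀ - b) := by positivity
      have hxk1 : x ^ (b₀ - b) ≤ 1 := pow_le_one₀ hx0.le hx1.le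
      rcases le_or_gt (b₀ - b) I with h | h
      · have h3 := hnear b hb h
        have h4 : x ^ (b₀ - b) * x ^ (b₀ - b) ≤ x ^ (b₀ - b) := by nlinarith
        have h5 : bn n p b * (q * Real.exp (-(2 * σ * ((t : ℝ) - D * b)))) ≤
            (bn n p b₁ * K) * (q * x ^ (b₀ - b)) := by
          refine mul_le_mul h3 (mul_le_mul_of_nonneg_left (hw.trans h4) hq0.le) (by positivity)
            (by positivity)
        have h6 : 0 ≤ F * x ^ (b₀ - b) := by positivity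
        linarith
      · have h3 : x ^ (b₀ - b) ≤ x ^ I := pow_le_pow_of_le_one hx0.le hx1.le h.le
        have h4 : x ^ (b₀ - b) * x ^ (b₀ - b) ≤ F * x ^ (b₀ - b) :=
          mul_le_mul_of_nonneg_right (h3.trans hxI) hxk.le
        have h5 : bn n p b * (q * Real.exp (-(2 * σ * ((t : ℝ) - D * b)))) ≤
            1 * (1 * (F * x ^ (b₀ - b))) := by
          refine mul_le_mul (bn_le_one hp0 hp1 n b) ?_ (by positivity) zero_le_one
          exact mul_le_mul hq1 (hw.trans h4) (Real.exp_pos _).le zero_le_one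
        have h6 : 0 ≤ (K * bn n p b₁ * q) * x ^ (b₀ - b) := by positivity
        linarith
    · have hb' : ¬ D * b ≤ t := by
        intro h
        apply hb
        rw [hb₀, Nat.le_div_iff_mul_le hDpos, mul_comm]
        exact h
      rw [if_neg hb', if_neg hb]
      simp
  have hsum : beta D σ n t ≤ (K * bn n p b₁ * q) * (1 / (1 - x)) + F * (1 / (1 - x)) := by
    unfold Pool.Agent.H174.GP.beta
    refine (sum_le_sum hterm).trans ?_
    rw [sum_add_distrib, ← mul_sum, ← mul_sum]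
    have hg := geo_sum hx0.le hx1 b₀ (n + 1)
    exact add_le_add (mul_le_mul_of_nonneg_left hg (by positivity))
      (mul_le_mul_of_nonneg_left hg hF0)
  -- lower bound at `t'`
  have hlow : bn n p b₁ * q ≤ Real.exp (2 * s2) * beta D σ n t' := by
    have hbeta0 : ∀ b ∈ range (n + 1), 0 ≤ (if D * b ≤ t' then
        bn n (pD D σ) b * ((1 - Real.exp (-(2 * σ))) * Real.exp (-(2 * σ * ((t' : ℝ) - D * b)))) else 0) := by
      intro b _
      rw [← hp, ← hq]
      split_ifs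
      · have := bn_nonneg hp0 hp1 n b
        positivity
      · exact le_rfl
    rcases le_or_gt b₁ n with h | h
    · have h3 : D * b₁ ≤ t' := by rw [hb₁]; exact Nat.mul_div_le t' D
      have h4 : (t' : ℝ) ≤ D * b₁ + D := by
        have : t' ≤ D * b₁ + D := by
          have := Nat.div_add_mod t' D
          have h5 := Nat.mod_lt t' hDpos
          rw [← hb₁] at this
          omega
        exact_mod_cast this
      have h5 : bn n p b₁ * (q * Real.exp (-(2 * σ * ((t' : ℝ) - D * b₁)))) ≤ beta D σ n t' := by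
        have h6 := single_le_sum hbeta0 (mem_range.2 (Nat.lt_succ_of_le h))
        rw [if_pos h3, ← hp, ← hq] at h6
        refine h6.trans (le_of_eq ?_)
        unfold Pool.Agent.H174.GP.beta
        rw [hp, hq]
      have h6 : Real.exp (-(2 * s2)) ≤ Real.exp (-(2 * σ * ((t' : ℝ) - D * b₁))) := by
        apply Real.exp_le_exp.2
        have : σ * ((t' : ℝ) - D * b₁) ≤ σ * D := mul_le_mul_of_nonneg_left (by linarith) hσ.le
        linarith
      have h7 : bn n p b₁ * q * Real.exp (-(2 * s2)) ≤ beta D σ n t' := by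
        refine le_trans ?_ h5
        rw [mul_assoc]
        exact mul_le_mul_of_nonneg_left (mul_le_mul_of_nonneg_left h6 hq0.le) hbn1
      have h8 := mul_le_mul_of_nonneg_left h7 (Real.exp_pos (2 * s2)).le
      have h9 : Real.exp (2 * s2) * (bn n p b₁ * q * Real.exp (-(2 * s2))) = bn n p b₁ * q := by
        have : Real.exp (2 * s2) * Real.exp (-(2 * s2)) = 1 := by
          rw [← Real.exp_add, add_neg_cancel, Real.exp_zero]
        linear_combination (bn n p b₁ * q) * this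
      linarith
    · have h3 : bn n p b₁ = 0 := by
        unfold bn
        rw [Nat.choose_eq_zero_of_lt h, Nat.cast_zero, zero_mul, zero_mul]
      rw [h3, zero_mul]
      have : 0 ≤ beta D σ n t' := by
        unfold Pool.Agent.H174.GP.beta
        exact sum_nonneg hbeta0
      positivity
  have hinv : 1 / (1 - x) ≤ 1 / (1 - Real.exp (-s1)) :=
    one_div_le_one_div_of_le hd (by linarith)
  have hb0' : 0 ≤ Real.exp (2 * s2) * beta D σ n t' := le_trans (by positivity) hlow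
  have h3 : (K * bn n p b₁ * q) * (1 / (1 - x)) ≤
      (K * (Real.exp (2 * s2) * beta D σ n t')) * (1 / (1 - Real.exp (-s1))) := by
    refine mul_le_mul ?_ hinv (by have : 0 < 1 - x := by linarith
                                  positivity) (by positivity)
    rw [mul_assoc]
    exact mul_le_mul_of_nonneg_left hlow hK
  have h4 : F * (1 / (1 - x)) ≤ F * (1 / (1 - Real.exp (-s1))) :=
    mul_le_mul_of_nonneg_left hinv hF0
  have e1 : K * (Real.exp (2 * s2) / (1 - Real.exp (-s1))) * beta D σ n t' =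
      (K * (Real.exp (2 * s2) * beta D σ n t')) * (1 / (1 - Real.exp (-s1))) := by
    field_simp
  have e2 : F / (1 - Real.exp (-s1)) = F * (1 / (1 - Real.exp (-s1))) := by
    field_simp
  rw [e1, e2]
  linarith

/-- the arithmetic of the deviations -/
theorem dev {D s ℓ e I p n t t' b b₀ b₁ : ℝ} (hD : 0 < D) (hℓ : 1 ≤ ℓ) (he1 : e ≤ 1)
    (hI : (I + 3) * ℓ ≤ s) (hI0 : 0 ≤ I) (h1 : |t - t'| ≤ e * ℓ * (D * s))
    (h2 : |t - D * (p * n)| ≤ 10 * ℓ * (D * s)) (hb₀ : |t - D * b₀| ≤ D) (hb₁ : |t' - D * b₁| ≤ D)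
    (hb : |b - b₀| ≤ I) :
    |b - p * n| ≤ 13 * ℓ * s ∧ |b₁ - p * n| ≤ 13 * ℓ * s ∧ |b - b₁| ≤ I + 2 + e * ℓ * s := by
  have hs : I + 3 ≤ s := le_trans (by nlinarith) hI
  have hs0 : 0 < s := by linarith
  have hℓs : s ≤ ℓ * s := by nlinarith
  have heℓs : e * ℓ * s ≤ ℓ * s := by
    have : 0 ≤ ℓ * s := by positivity
    nlinarith
  have k1 : |t / D - t' / D| ≤ e * ℓ * s := by
    rw [← sub_div, abs_div, abs_of_pos hD, div_le_iff₀ hD]
    linarith
  have k2 : |t / D - p * n| ≤ 10 * ℓ * s := by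
    have : t / D - p * n = (t - D * (p * n)) / D := by field_simp
    rw [this, abs_div, abs_of_pos hD, div_le_iff₀ hD]
    linarith
  have k3 : |t / D - b₀| ≤ 1 := by
    have : t / D - b₀ = (t - D * b₀) / D := by field_simp
    rw [this, abs_div, abs_of_pos hD, div_le_iff₀ hD]
    linarith
  have k4 : |t' / D - b₁| ≤ 1 := by
    have : t' / D - b₁ = (t' - D * b₁) / D := by field_simp
    rw [this, abs_div, abs_of_pos hD, div_le_iff₀ hD]
    linarith
  rw [abs_le] at k1 k2 k3 k4 hb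
  refine ⟨abs_le.2 ⟨?_, ?_⟩, abs_le.2 ⟨?_, ?_⟩, abs_le.2 ⟨?_, ?_⟩⟩ <;>
    linarith [k1.1, k1.2, k2.1, k2.2, k3.1, k3.2, k4.1, k4.2, hb.1, hb.2]

theorem gp_beta2 (h1 : S_bin2) : Pool.Agent.H174.GP.S_beta2 := by
  intro s1 s2 c hs1 hs2 hc
  obtain ⟨p0, hp0⟩ : ∃ p0, p0 = Real.exp (-(2 * s2)) / (1 + Real.exp (-(2 * s2))) := ⟨_, rfl⟩
  have hE : 0 < Real.exp (-(2 * s2)) := Real.exp_pos _
  have hE1 : Real.exp (-(2 * s2)) ≤ 1 := by
    rw [Real.exp_le_one_iff]
    linarith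
  have hp0pos : 0 < p0 := by rw [hp0]; positivity
  have hp0half : p0 ≤ 1 / 2 := by
    rw [hp0, div_le_div_iff₀ (by positivity) (by norm_num)]
    linarith
  obtain ⟨C₂, hC₂, c₀, hc₀, hbin⟩ := h1 p0 hp0pos hp0half
  obtain ⟨sc, hsc⟩ : ∃ sc, sc = Real.sqrt c := ⟨_, rfl⟩
  have hsc0 : 0 < sc := by rw [hsc]; exact Real.sqrt_pos.2 hc
  obtain ⟨C₁, hC₁⟩ : ∃ C₁, C₁ = 13 / sc := ⟨_, rfl⟩
  have hC₁0 : 0 < C₁ := by rw [hC₁]; positivity
  obtain ⟨C', hC'⟩ : ∃ C', C' = 2 * C₂ * C₁ / sc := ⟨_, rfl⟩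
  have hC'0 : 0 < C' := by rw [hC']; positivity
  have hes : Real.exp (-s1) < 1 := by
    rw [Real.exp_lt_one_iff]
    linarith
  have hd : 0 < 1 - Real.exp (-s1) := by linarith
  obtain ⟨A, hA⟩ : ∃ A, A = Real.exp (2 * s2) / (1 - Real.exp (-s1)) := ⟨_, rfl⟩
  have hA0 : 0 < A := by rw [hA]; positivity
  obtain ⟨C, hC⟩ : ∃ C, C = max (Real.exp C' * A) C' := ⟨_, rfl⟩
  have hCA : Real.exp C' * A ≤ C := by rw [hC]; exact le_max_left _ _
  have hCC : C' ≤ C := by rw [hC]; exact le_max_right _ _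
  refine ⟨C, lt_of_lt_of_le hC'0 hCC, ?_⟩
  intro ε1 hε0 hε1
  obtain ⟨a, ha⟩ : ∃ a, a = 5 / s1 := ⟨_, rfl⟩
  have ha0 : 0 < a := by rw [ha]; positivity
  obtain ⟨Q, hQ⟩ : ∃ Q, Q = max (8 * (4 + 8 * a)) (max (8 * C₁ / (c₀ * sc))
    (1 / (1 - Real.exp (-s1)))) := ⟨_, rfl⟩
  have hQ1 : 8 * (4 + 8 * a) ≤ Q := by rw [hQ]; exact le_max_left _ _
  have hQ2 : 8 * C₁ / (c₀ * sc) ≤ Q := by
    rw [hQ]; exact (le_max_left _ _).trans (le_max_right _ _)
  have hQ3 : 1 / (1 - Real.exp (-s1)) ≤ Q := by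
    rw [hQ]; exact (le_max_right _ _).trans (le_max_right _ _)
  have hQ32 : 32 ≤ Q := by linarith
  refine ⟨⌈Q ^ 8⌉₊, ?_⟩
  intro D hD σ hσ h1σ h2σ n t t' hcn hnD htt htp
  have hDQ : Q ^ 8 ≤ (D : ℝ) := (Nat.le_ceil _).trans (by exact_mod_cast hD)
  have hQ8 : Q ≤ Q ^ 8 := by
    have : Q ^ 1 ≤ Q ^ 8 := pow_le_pow_right₀ (by linarith) (by norm_num)
    rwa [pow_one] at this
  have hD32 : (32 : ℝ) ≤ D := by linarith
  have hDpos : (0 : ℝ) < D := by linarith
  have hD1 : 1 ≤ D := by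
    have : (1 : ℝ) ≤ D := by linarith
    exact_mod_cast this
  -- the eighth root
  obtain ⟨Y, hY⟩ : ∃ Y, Y = (D : ℝ) ^ (1 / 8 : ℝ) := ⟨_, rfl⟩
  have hY0 : 0 < Y := by rw [hY]; positivity
  have hY8 : Y ^ 8 = D := by
    rw [hY, ← Real.rpow_natCast, ← Real.rpow_mul hDpos.le]
    norm_num
  have hYQ : Q ≤ Y := by
    by_contra hcon
    push Not at hcon
    have : Y ^ 8 < Q ^ 8 := pow_lt_pow_left₀ hcon hY0.le (by norm_num)
    linarith
  have hY1 : 1 ≤ Y := by linarith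
  have hs : Real.sqrt D = Y ^ 4 := by
    rw [← hY8]
    have : Y ^ 8 = (Y ^ 4) ^ 2 := by ring
    rw [this, Real.sqrt_sq (by positivity)]
  have hD32' : (D : ℝ) ^ (3 / 2 : ℝ) = D * Y ^ 4 := by
    have : (3 / 2 : ℝ) = 1 + 1 / 2 := by norm_num
    rw [this, Real.rpow_add hDpos, Real.rpow_one, ← Real.sqrt_eq_rpow, hs]
  -- logarithms
  have hlog8 : Real.log D ≤ 8 * Y := by
    rw [← hY8, Real.log_pow]
    have := Real.log_le_sub_one_of_pos hY0
    push_cast
    linarith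
  have hlog1 : 1 ≤ Real.log D := by
    rw [Real.le_log_iff_exp_le hDpos]
    have := Real.exp_one_lt_d9
    linarith
  obtain ⟨ℓ, hℓ⟩ : ∃ ℓ, ℓ = Real.sqrt (Real.log D) := ⟨_, rfl⟩
  have hℓ2 : ℓ ^ 2 = Real.log D := by
    rw [hℓ]
    exact Real.sq_sqrt (by linarith)
  have hℓ1 : 1 ≤ ℓ := by
    rw [hℓ, Real.one_le_sqrt]
    exact hlog1
  have hℓY : ℓ ≤ 8 * Y := by
    have k1 : ℓ * 1 ≤ ℓ * ℓ := mul_le_mul_of_nonneg_left hℓ1 (by linarith)
    have k2 : ℓ * ℓ = Real.log D := by rw [← hℓ2]; ring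
    linarith
  obtain ⟨e, he⟩ : ∃ e, e = Real.sqrt ε1 := ⟨_, rfl⟩
  have he0 : 0 ≤ e := by rw [he]; exact Real.sqrt_nonneg _
  have he1 : e ≤ 1 := by
    rw [he]
    exact Real.sqrt_le_iff.2 ⟨zero_le_one, by linarith⟩
  have heℓ : Real.sqrt (ε1 * Real.log D) = e * ℓ := by
    rw [Real.sqrt_mul hε0.le, he, hℓ]
  obtain ⟨s, hs4⟩ : ∃ s, s = Y ^ 4 := ⟨_, rfl⟩
  rw [← hs4] at hs hD32'
  rw [heℓ, hD32'] at htt
  rw [← hℓ, hD32'] at htp
  have hspos : 0 < s := by rw [hs4]; positivity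
  -- the parameter `I`
  obtain ⟨I, hI⟩ : ∃ I : ℕ, I = ⌈a * Real.log D⌉₊ := ⟨_, rfl⟩
  have hI1 : a * Real.log D ≤ I := by rw [hI]; exact Nat.le_ceil _
  have hI2 : (I : ℝ) ≤ a * Real.log D + 1 := by
    rw [hI]
    exact (Nat.ceil_lt_add_one (by positivity)).le
  have hIℓ : ((I : ℝ) + 3) * ℓ ≤ s := by
    have k1 : (I : ℝ) + 3 ≤ (4 + 8 * a) * Y := by
      have : a * Real.log D ≤ a * (8 * Y) := mul_le_mul_of_nonneg_left hlog8 ha0.le
      linarith
    have k2 : ((I : ℝ) + 3) * ℓ ≤ ((4 + 8 * a) * Y) * (8 * Y) :=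
      mul_le_mul k1 hℓY (by linarith) (by positivity)
    have k3 : ((4 + 8 * a) * Y) * (8 * Y) = (8 * (4 + 8 * a)) * Y ^ 2 := by ring
    have k4 : (8 * (4 + 8 * a)) * Y ^ 2 ≤ Y * Y ^ 2 :=
      mul_le_mul_of_nonneg_right (hQ1.trans hYQ) (by positivity)
    have k5 : Y * Y ^ 2 ≤ Y ^ 4 := by
      have : Y ^ 3 ≤ Y ^ 4 := pow_le_pow_right₀ hY1 (by norm_num)
      linarith [this, (by ring : Y * Y ^ 2 = Y ^ 3)]
    rw [hs4]
    linarith
  -- the probability
  obtain ⟨p, hp⟩ : ∃ p, p = pD D σ := ⟨_, rfl⟩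
  rw [← hp] at htp
  have hpp : p0 ≤ p ∧ p ≤ 1 / 2 := by
    have k1 : Real.exp (-(2 * s2)) ≤ Real.exp (-(2 * σ * D)) := Real.exp_le_exp.2 (by linarith)
    have k2 : Real.exp (-(2 * σ * D)) ≤ 1 := by
      rw [Real.exp_le_one_iff]
      have : 0 ≤ σ * D := by positivity
      linarith
    have k3 := Real.exp_pos (-(2 * σ * D))
    constructor
    · rw [hp, hp0]
      unfold pD
      rw [div_le_div_iff₀ (by positivity) (by positivity)]
      linarith
    · rw [hp]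
      unfold pD
      rw [div_le_div_iff₀ (by positivity) (by norm_num)]
      linarith
  have hp1 : p ≤ 1 := by linarith [hpp.2]
  have hp00 : 0 ≤ p := by linarith [hpp.1]
  -- the size of `n`
  have hnpos : (0 : ℝ) < n := lt_of_lt_of_le (by positivity) hcn
  have hn1 : 1 ≤ n := by exact_mod_cast hnpos
  obtain ⟨sn, hsn⟩ : ∃ sn, sn = Real.sqrt n := ⟨_, rfl⟩
  have hsn0 : 0 < sn := by rw [hsn]; exact Real.sqrt_pos.2 hnpos
  have hsn2 : sn * sn = n := by rw [hsn]; exact Real.mul_self_sqrt hnpos.le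
  have hsnle : sc * s ≤ sn := by
    rw [hsc, ← hs, ← Real.sqrt_mul hc.le, hsn]
    exact Real.sqrt_le_sqrt hcn
  obtain ⟨u, hu⟩ : ∃ u, u = C₁ * ℓ := ⟨_, rfl⟩
  have hu0 : 0 < u := by rw [hu]; positivity
  have hus : 13 * ℓ * s ≤ u * sn := by
    have k1 : u * (sc * s) ≤ u * sn := mul_le_mul_of_nonneg_left hsnle hu0.le
    have k2 : u * (sc * s) = 13 * ℓ * s := by
      rw [hu, hC₁]
      field_simp
    linarith
  have huc : u ≤ c₀ * sn := by
    have k1 : c₀ * (sc * s) ≤ c₀ * sn := mul_le_mul_of_nonneg_left hsnle hc₀.le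
    have k2 : 8 * C₁ ≤ Y * (c₀ * sc) := by
      have := hQ2.trans hYQ
      rwa [div_le_iff₀ (by positivity)] at this
    have k3 : u ≤ C₁ * (8 * Y) := by
      rw [hu]
      exact mul_le_mul_of_nonneg_left hℓY hC₁0.le
    have k4 : C₁ * (8 * Y) ≤ Y ^ 2 * (c₀ * sc) := by
      have := mul_le_mul_of_nonneg_left k2 hY0.le
      linarith [this, (by ring : Y * (Y * (c₀ * sc)) = Y ^ 2 * (c₀ * sc))]
    have k5 : Y ^ 2 * (c₀ * sc) ≤ Y ^ 4 * (c₀ * sc) :=
      mul_le_mul_of_nonneg_right (pow_le_pow_right₀ hY1 (by norm_num)) (by positivity)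
    rw [hs4] at k1
    linarith [k1, (by ring : c₀ * (sc * Y ^ 4) = Y ^ 4 * (c₀ * sc))]
  have hus1 : 1 ≤ u * sn := by
    refine le_trans ?_ hus
    have k1 : 1 ≤ s := by
      rw [hs4]
      exact one_le_pow₀ hY1
    have k2 : 1 * 1 ≤ ℓ * s := mul_le_mul hℓ1 k1 zero_le_one (by linarith)
    linarith
  -- the comparison factor
  obtain ⟨K, hK⟩ : ∃ K, K = Real.exp (C' * (1 + e * Real.log D)) := ⟨_, rfl⟩
  have hdiv : ∀ m : ℕ, |(m : ℝ) - D * ((m / D : ℕ) : ℝ)| ≤ D := by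
    intro m
    have k1 := Nat.div_add_mod m D
    have k2 := Nat.mod_lt m (by omega : 0 < D)
    have k3 : (m : ℝ) - D * ((m / D : ℕ) : ℝ) = ((m % D : ℕ) : ℝ) := by
      have : (m : ℝ) = D * ((m / D : ℕ) : ℝ) + ((m % D : ℕ) : ℝ) := by exact_mod_cast k1.symm
      linarith
    rw [k3, abs_of_nonneg (Nat.cast_nonneg _)]
    exact_mod_cast k2.le
  have hnear : ∀ b, b ≤ t / D → t / D - b ≤ I → bn n p b ≤ bn n p (t' / D) * K := by
    intro b hb hbI
    have hbb : |(b : ℝ) - ((t / D : ℕ) : ℝ)| ≤ I := by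
      rw [abs_sub_comm, ← Nat.cast_sub hb, abs_of_nonneg (Nat.cast_nonneg _)]
      exact_mod_cast hbI
    obtain ⟨k1, k2, k3⟩ := dev hDpos hℓ1 he1 hIℓ (Nat.cast_nonneg I) htt
      htp (hdiv t) (hdiv t') hbb
    have k4 := hbin p u n b (t' / D) hpp.1 (by linarith [hpp.2]) hn1 hu0.le (by rw [← hsn]; exact huc)
      (by rw [← hsn]; exact k1.trans hus) (by rw [← hsn]; exact k2.trans hus)
    refine k4.trans (mul_le_mul_of_nonneg_left ?_ (bn_nonneg hp00 hp1 n _))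
    rw [hK]
    apply Real.exp_le_exp.2
    rw [← hsn]
    have k5 : C₂ * |(b : ℝ) - ((t' / D : ℕ) : ℝ)| * (u * sn + 1) / n ≤
        C₂ * ((I : ℝ) + 2 + e * ℓ * s) * (2 * (u * sn)) / n := by
      apply div_le_div_of_nonneg_right _ hnpos.le
      refine mul_le_mul (mul_le_mul_of_nonneg_left k3 hC₂.le) (by linarith) (by linarith)
        (by positivity)
    refine k5.trans ?_
    have k6 : C₂ * ((I : ℝ) + 2 + e * ℓ * s) * (2 * (u * sn)) / n =
        (2 * C₂ * C₁) * (((I : ℝ) + 2) * ℓ + e * ℓ ^ 2 * s) / sn := by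
      rw [← hsn2, hu]
      field_simp
    have k7 : (2 * C₂ * C₁) * (((I : ℝ) + 2) * ℓ + e * ℓ ^ 2 * s) / sn ≤
        (2 * C₂ * C₁) * (s + e * ℓ ^ 2 * s) / (sc * s) := by
      refine div_le_div₀ (by positivity) ?_ (by positivity) hsnle
      refine mul_le_mul_of_nonneg_left ?_ (by positivity)
      linarith
    have k8 : (2 * C₂ * C₁) * (s + e * ℓ ^ 2 * s) / (sc * s) = C' * (1 + e * Real.log D) := by
      rw [hC', ← hℓ2]
      field_simp
    rw [k6]
    linarith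
  -- conclusion
  obtain ⟨F, hF⟩ : ∃ F, F = (D : ℝ) ^ (-5 : ℝ) := ⟨_, rfl⟩
  have hIF : Real.exp (-(s1 * I)) ≤ F := by
    rw [hF, Real.rpow_def_of_pos hDpos]
    apply Real.exp_le_exp.2
    have k1 := mul_le_mul_of_nonneg_left hI1 hs1.le
    have k2 : s1 * (a * Real.log D) = 5 * Real.log D := by
      rw [ha]
      field_simp
    linarith
  have key := core hD1 hσ h1σ h2σ hs1 hp00 hp1 (K := K) (by rw [hK]; positivity) n t t' I hIF hnear hp
  have hb0 : 0 ≤ beta D σ n t' := by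
    unfold Pool.Agent.H174.GP.beta
    rw [← hp]
    refine sum_nonneg fun b _ => ?_
    split_ifs
    · have k1 := bn_nonneg hp00 hp1 n b
      have k2 : 0 ≤ 1 - Real.exp (-(2 * σ)) := by
        have : Real.exp (-(2 * σ)) ≤ 1 := by
          rw [Real.exp_le_one_iff]
          linarith
        linarith
      positivity
    · exact le_rfl
  refine key.trans (add_le_add (mul_le_mul_of_nonneg_right ?_ hb0) ?_)
  · rw [← hA, hK]
    have k1 : Real.exp (C' * (1 + e * Real.log D)) = Real.exp C' * (D : ℝ) ^ (C' * e) := by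
      rw [Real.rpow_def_of_pos hDpos, ← Real.exp_add]
      congr 1
      ring
    have k2 : (D : ℝ) ^ (C' * e) ≤ (D : ℝ) ^ (C * e) :=
      Real.rpow_le_rpow_of_exponent_le (by linarith) (mul_le_mul_of_nonneg_right hCC he0)
    rw [k1, ← he]
    have k3 : 0 ≤ (D : ℝ) ^ (C' * e) := by positivity
    calc Real.exp C' * (D : ℝ) ^ (C' * e) * A = (Real.exp C' * A) * (D : ℝ) ^ (C' * e) := by ring
      _ ≤ C * (D : ℝ) ^ (C * e) := mul_le_mul hCA k2 k3 (by linarith)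
  · have k1 : F = (D : ℝ) ^ (-4 : ℝ) * (1 / D) := by
      rw [hF]
      have : (-5 : ℝ) = -4 - 1 := by norm_num
      rw [this, Real.rpow_sub_one hDpos.ne']
      ring
    have k2 : 1 / (1 - Real.exp (-s1)) ≤ D := by linarith
    have k3 : 0 ≤ (D : ℝ) ^ (-4 : ℝ) := by positivity
    rw [k1]
    have k4 : (1 / (D : ℝ)) * (1 / (1 - Real.exp (-s1))) ≤ 1 := by
      rw [one_div_mul_eq_div, div_le_one hDpos]
      exact k2
    calc (D : ℝ) ^ (-4 : ℝ) * (1 / D) / (1 - Real.exp (-s1))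
        = (D : ℝ) ^ (-4 : ℝ) * ((1 / (D : ℝ)) * (1 / (1 - Real.exp (-s1)))) := by
          field_simp
      _ ≤ (D : ℝ) ^ (-4 : ℝ) * 1 := mul_le_mul_of_nonneg_left k4 k3
      _ = (D : ℝ) ^ (-4 : ℝ) := mul_one _

end Pool.Agent.H727.GP174
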